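import Pool.Agent.Helper90.MZ.StmtsC

/-!
# MP_79eb7e_lc, module PKA: indecomposable families are bounded
-/

set_option autoImplicit false

namespace Pool.Agent.Helper90.MZ

open Pool.Agent.Helper90.TS

section pka

variable {V G : Type} [Group G] [MulAction G V] {X : Ctx V G}

theorem pka_isl {A : Set V} {g : G} {ι : Type} [Finite ι] {y : ι → V} (h : Isl X (tr g A) y) :
    Isl X A (g⁻¹ • y) := by
  obtain ⟨D, hD, hy, h1⟩ := h
  refine ⟨{x | g • x ∈ D}, ?_, ?_, ?_⟩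
  · have := ov_smul hD g
    rwa [tr_inv_tr] at this
  · show g • (g⁻¹ • y) ∈ D
    rwa [smul_inv_smul]
  · intro x hx
    have h2 := h1 (g • x) hx
    rw [← eqv_tr g, smul_inv_smul]
    exact h2

/-- candidate families inside `N` -/
def pkaP (X : Ctx V G) (b N : Set V) {s : ℕ} (C : Fin s → Ty V) : Prop :=
  Fam X b C ∧ (∀ i, (C i).A ⊆ N ∧ Bd X (C i) N) ∧ Indec X b C

/-- `s` is the size of a maximal candidate family -/
def pkaM (X : Ctx V G) (b N : Set V) (s : ℕ) : Prop :=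
  ∃ C : Fin s → Ty V, pkaP X b N C ∧ ∀ (s' : ℕ) (C' : Fin s' → Ty V), pkaP X b N C' →
    (∀ i, ∃ i', NO X (C i) (C' i')) → s' ≤ s

theorem pka_Ptr (hA : ST_INVA) (hB : ST_INVB) {b N : Set V} (hb : b.Countable) {g : G}
    (hg : g ∈ Fx G b) {s : ℕ} {C : Fin s → Ty V} (h : pkaP X b N C) :
    pkaP X b (tr g N) (fun i => mv g (C i)) := by
  obtain ⟨h1, h2, h3⟩ := h
  have a1 := (hB V G X g).2.2.2.2.1 b (Fin s) C h1
  have a2 := (hB V G X g).2.2.2.2.2.2.1 b (Fin s) C hb h3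
  rw [tr_fx hg] at a1 a2
  refine ⟨a1, fun i => ⟨tr_mono g (h2 i).1, ?_⟩, a2⟩
  exact (hA V G X g).2.2.2.2.2.2.2.1 (C i) N (h1.1 i).1.2.1.countable (h2 i).2

theorem pka_Mtr (hA : ST_INVA) (hB : ST_INVB) {b N : Set V} (hb : b.Countable) {g : G}
    (hg : g ∈ Fx G b) {s : ℕ} (h : pkaM X b N s) : pkaM X b (tr g N) s := by
  obtain ⟨C, h1, h2⟩ := h
  refine ⟨fun i => mv g (C i), pka_Ptr hA hB hb hg h1, ?_⟩
  intro s' C' h3 h4
  have hg' : g⁻¹ ∈ Fx G b := inv_mem hg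
  have h5 := pka_Ptr hA hB hb hg' h3
  rw [tr_inv_tr] at h5
  refine h2 s' _ h5 ?_
  intro i
  obtain ⟨i', h6⟩ := h4 i
  refine ⟨i', ?_⟩
  have h7 := (hA V G X g⁻¹).2.2.2.1 _ _ h6
  rwa [(hA V G X g).1] at h7

theorem pka_Miff (hA : ST_INVA) (hB : ST_INVB) {b N : Set V} (hb : b.Countable) {g : G}
    (hg : g ∈ Fx G b) {s : ℕ} : pkaM X b (tr g N) s ↔ pkaM X b N s := by
  constructor
  · intro h
    have := pka_Mtr hA hB hb (inv_mem hg) h
    rwa [tr_inv_tr] at this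
  · exact pka_Mtr hA hB hb hg

/-- injectivity: a family of pairwise non-`NO` types mapped into another family -/
theorem pka_inj (hN : ST_NOEQ) {b : Set V} {s s' : ℕ} {C : Fin s → Ty V} {C' : Fin s' → Ty V}
    (h1 : Fam X b C) (h2 : Fam X b C') (h : ∀ i, ∃ i', NO X (C i) (C' i')) : s ≤ s' := by
  choose f hf using h
  have hinj : Function.Injective f := by
    intro i j hij
    by_contra hne
    refine h1.2 i j hne ?_
    have a := hf i
    have c := (hN V G X).2.1 _ _ (hf j)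
    rw [← hij] at c
    exact (hN V G X).2.2 _ _ _ (h1.1 i).1.1 (h2.1 (f i)).1.1 (h1.1 j).1.1 a c
  have := Fintype.card_le_of_injective f hinj
  simpa using this

end pka

theorem st_PKA (hBLK : ST_BLK) (hFWB : ST_FWB) (hPRB : ST_PRB) (hENIU : ST_ENIU)
    (hA : ST_INVA) (hB : ST_INVB) (hIND : ST_IND) (hN : ST_NOEQ) (hR : ST_RLB) : ST_PKA := by
  intro V G _ _ X b hFew hbf
  by_contra hcon
  have hb : b.Countable := hbf.countable
  have hcon' : ∀ K : ℕ, ∃ c : (k : ℕ) × (Fin k → Ty V), K < c.1 ∧ Fam X b c.2 ∧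
      Indec X b c.2 := by
    intro K
    by_contra hK
    apply hcon
    refine ⟨K, fun k C h1 h2 => ?_⟩
    by_contra hk
    exact hK ⟨⟨k, C⟩, not_le.1 hk, h1, h2⟩
  choose c hc1 hc2 hc3 using hcon'
  -- the sequence
  let Ks : ℕ → ℕ := fun n => Nat.rec 0 (fun _ r => (c r).1) n
  have hKs : ∀ n, Ks (n + 1) = (c (Ks n)).1 := fun n => rfl
  let m : ℕ → ℕ := fun n => (c (Ks n)).1
  have hm : StrictMono m := by
    apply strictMono_nat_of_lt_succ
    intro n
    have := hc1 (Ks (n + 1))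
    rw [hKs n] at this
    exact this
  have hm1 : ∀ n, 0 < m n := fun n => lt_of_le_of_lt (Nat.zero_le _) (hc1 (Ks n))
  let C' : (n : ℕ) → Fin (m n) → Ty V := fun n => (c (Ks n)).2
  have hF' : ∀ n, Fam X b (C' n) := fun n => hc2 (Ks n)
  have hI' : ∀ n, Indec X b (C' n) := fun n => hc3 (Ks n)
  have hw : ∀ n (j : Fin (m n)), ∃ F : Set V, F.Finite ∧ (C' n j).A ⊆ F ∧
      ∀ y, Rl X (C' n j) F y → ¬ Isl X F y := fun n j => ((hF' n).1 j).1.2.2
  choose W hW1 hW2 hW3 using hw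
  let h' : ℕ → Set V := fun n => b ∪ ⋃ j, W n j
  have hh'f : ∀ n, (h' n).Finite := fun n => hbf.union (Set.finite_iUnion (hW1 n))
  have hh'W : ∀ n j, W n j ⊆ h' n := fun n j =>
    (Set.subset_iUnion (fun j => W n j) j).trans Set.subset_union_right
  have hh'A : ∀ n j, (C' n j).A ⊆ h' n := fun n j => (hW2 n j).trans (hh'W n j)
  have hh'I : ∀ n j y, Rl X (C' n j) (h' n) y → ¬ Isl X (h' n) y := by
    intro n j y hy
    have hsr : SR X (C' n j) := ((hF' n).1 j).1.1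
    have hyW : Rl X (C' n j) (W n j) y :=
      (hR V G X _ hsr (h' n) (hh'f n).countable).2.2.1 y hy (W n j)
        ((hh'W n j).trans Set.subset_union_right)
    have h1 := hW3 n j y hyW
    have h2 := (hENIU V G X (C' n j)).1 hsr (W n j) (h' n) y y (hh'W n j)
      (hh'f n).countable hyW hy
    rw [Set.union_eq_self_of_subset_left (hW2 n j),
      Set.union_eq_self_of_subset_left (hh'A n j)] at h2
    exact h2 h1
  obtain ⟨g, hg, hInd, -⟩ := (hIND V G X b hb).2.2.2.2.2.1 h' ∅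
    (fun n => (hh'f n).countable) Set.countable_empty
  let h : ℕ → Set V := fun n => tr (g n) (h' n)
  let C : (n : ℕ) → Fin (m n) → Ty V := fun n j => mv (g n) (C' n j)
  have hF : ∀ n, Fam X b (C n) := by
    intro n
    have := (hB V G X (g n)).2.2.2.2.1 b (Fin (m n)) (C' n) (hF' n)
    rwa [tr_fx (hg n)] at this
  have hI : ∀ n, Indec X b (C n) := by
    intro n
    have := (hB V G X (g n)).2.2.2.2.2.2.1 b (Fin (m n)) (C' n) hb (hI' n)
    rwa [tr_fx (hg n)] at this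
  have hhf : ∀ n, (h n).Finite := fun n => tr_finite _ (hh'f n)
  have hbh : ∀ n, b ⊆ h n := by
    intro n
    have := tr_mono (g n) (Set.subset_union_left : b ⊆ h' n)
    rwa [tr_fx (hg n)] at this
  have hCA : ∀ n j, (C n j).A ⊆ h n := fun n j => tr_mono (g n) (hh'A n j)
  have hCI : ∀ n j y, Rl X (C n j) (h n) y → ¬ Isl X (h n) y := by
    intro n j y hy hisl
    have h1 := pka_isl hisl
    have hcA : (C' n j).A.Countable := (hh'f n).countable.mono (hh'A n j)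
    have h2 := (hA V G X (g n)⁻¹).2.1 (C n j) (h n) y (tr_countable _ hcA)
      (hhf n).countable hy
    have e1 : mv (g n)⁻¹ (C n j) = C' n j := (hA V G X (g n)).1 _
    have e2 : tr (g n)⁻¹ (h n) = h' n := tr_inv_tr _ _
    rw [e1, e2] at h2
    exact hh'I n j _ h2 h1
  -- the models
  have hBLK' : ∀ x : ℕ → Bool, ∃ N, Mdl X N ∧ b ⊆ N ∧
      (∀ n, x n = true → h n ⊆ N ∧ ∀ j, Bd X (C n j) N) ∧
      (∀ r : Ty V, ENI X r → r.A ⊆ N → Bd X r N → ∃ n, x n = true ∧ ∃ j, NO X r (C n j)) ∧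
      ∀ (k : ℕ) (E : Fin k → Ty V), Fam X b E → (∀ i, (E i).A ⊆ N ∧ Bd X (E i) N) →
      Indec X b E → 0 < k → ∃ n, x n = true ∧ ∀ i, ∃ j, NO X (E i) (C n j) :=
    fun x => hBLK V G X b m C h x hbf (fun n => ⟨hF n, hhf n, hbh n, fun j =>
      ⟨hCA n j, hCI n j⟩⟩) hInd
  choose N hN1 hN2 hN3 _ hN5 using hBLK'
  -- the claim
  have hblock : ∀ n n' (j : Fin (m n)) (j' : Fin (m n')), NO X (C n j) (C n' j') → n = n' := by
    intro n n' j j' hno
    by_contra hne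
    have h1 := hInd {n} {n'} (Set.disjoint_singleton.2 hne)
    have h2 : SI X b (h n) (h n') := by
      simpa using h1
    have h3 : SI X b (C n j).A (C n' j').A :=
      si_left (hCA n j) (si_right hb (hhf n).countable (hhf n').countable (hCA n' j') h2)
    refine (hPRB V G X b hb).2.2.2.1 _ _ ((hF n).1 j).1.1 ((hF n').1 j').1.1 hno ?_ h3
    exact ((hF n).1 j).2
  have hclaim : ∀ (x : ℕ → Bool) (s : ℕ), 0 < s →
      (pkaM X b (N x) s ↔ ∃ n, s = m n ∧ x n = true) := by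
    intro x s hs
    constructor
    · rintro ⟨E, hE, hmax⟩
      obtain ⟨n, hxn, hn⟩ := hN5 x s E hE.1 hE.2.1 hE.2.2 hs
      have h1 : s ≤ m n := pka_inj hN hE.1 (hF n) hn
      have h2 : m n ≤ s := hmax (m n) (C n) ⟨hF n, fun j =>
        ⟨(hCA n j).trans (hN3 x n hxn).1, (hN3 x n hxn).2 j⟩, hI n⟩ hn
      exact ⟨n, le_antisymm h1 h2, hxn⟩
    · rintro ⟨n, rfl, hxn⟩
      refine ⟨C n, ⟨hF n, fun j => ⟨(hCA n j).trans (hN3 x n hxn).1, (hN3 x n hxn).2 j⟩,
        hI n⟩, ?_⟩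
      intro s' E hE hE2
      obtain ⟨i', hi'⟩ := hE2 ⟨0, hm1 n⟩
      obtain ⟨n', hxn', hn'⟩ := hN5 x s' E hE.1 hE.2.1 hE.2.2 (lt_of_le_of_lt (Nat.zero_le _) i'.2)
      obtain ⟨j', hj'⟩ := hn' i'
      have e : n = n' := hblock n n' ⟨0, hm1 n⟩ j'
        ((hN V G X).2.2 _ _ _ ((hF n).1 _).1.1 (hE.1.1 i').1.1 ((hF n').1 _).1.1 hi' hj')
      subst e
      exact pka_inj hN hE.1 (hF n) hn'
  refine hFWB V G X b hFew hbf ⟨N, fun x => ⟨hN1 x, hN2 x⟩, ?_⟩
  rintro x y ⟨a, ha, hay⟩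
  have hxy : ∀ n, x n = true ↔ y n = true := by
    intro n
    have h1 := hclaim x (m n) (hm1 n)
    have h2 := hclaim y (m n) (hm1 n)
    rw [← hay, pka_Miff hA hB hb ha, h1] at h2
    have h3 : ∀ z : ℕ → Bool, (∃ n', m n = m n' ∧ z n' = true) ↔ z n = true := by
      intro z
      constructor
      · rintro ⟨n', e, hz⟩
        rwa [hm.injective e]
      · intro hz
        exact ⟨n, rfl, hz⟩
    rw [h3, h3] at h2
    exact h2
  funext n
  rw [Bool.eq_iff_iff]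
  exact hxy n

end Pool.Agent.Helper90.MZ
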